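import Pool.Agent.H90.RG.Targets

/-! Partial regularity of stationary harmonic maps (MP_2697e3_an), row G_MNS: small energy on one ball
gives small energy on all smaller balls. -/

namespace Pool.Agent.H73.RG

open MeasureTheory Metric Set Filter Topology Pool.Agent.H87.SN Pool.Agent.H90.RG
open scoped ENNReal

private theorem rad_le {n : ℕ} {x y : E (n + 1)} {R s : ℝ} (hR : 0 < R) (hs : 0 < s)
    (h : ball y s ⊆ ball x R) : s ≤ R := by
  have h1 := measure_mono (μ := (volume : Measure (E (n + 1)))) h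
  rw [Measure.addHaar_ball volume y hs.le, Measure.addHaar_ball volume x hR.le] at h1
  have h2 : volume (ball (0 : E (n + 1)) 1) ≠ 0 := (measure_ball_pos _ _ one_pos).ne'
  have h3 : volume (ball (0 : E (n + 1)) 1) ≠ ⊤ := measure_ball_lt_top.ne
  have h4 := (ENNReal.mul_le_mul_iff_left h2 h3).1 h1
  have h5 := (ENNReal.ofReal_le_ofReal_iff (by positivity)).1 h4
  by_contra hc
  push Not at hc
  have h6 : Module.finrank ℝ (E (n + 1)) ≠ 0 := by
    rw [finrank_euclideanSpace_fin]
    exact Nat.succ_ne_zero n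
  exact absurd h5 (not_le.2 (pow_lt_pow_left₀ hc hR.le h6))

theorem pf_MNS (hU : Pool.Agent.H22.AN.T_MUF) (hM : Pool.Agent.H22.AN.T_MNT) : T_MNS := by
  intro d m G hG hst x R hR hx y s hs hsub
  obtain ⟨hfin, -, -, h4, -⟩ := hU d m G hG
  have hsR : s ≤ R := rad_le (n := d + 1) hR hs hsub
  have hyx : dist y x < R := hsub (mem_ball_self hs)
  have hy2 : ball y R ⊆ ball x (2 * R) := ball_subset_ball' (by linarith)
  have hyR : ball y R ⊆ ball 0 2 := hy2.trans hx
  have hys : ball y s ⊆ ball 0 2 := (ball_subset_ball hsR).trans hyR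
  have h5 := (h4 (ball y s) measurableSet_ball hys).2
  have h6 := (h4 (ball x (2 * R)) measurableSet_ball hx).2
  rw [← h5, ← h6]
  have hth : Pool.Agent.H22.AN.th G y s ≤ Pool.Agent.H22.AN.th G y R := by
    rcases hsR.lt_or_eq with h | h
    · have h7 := (hM d m G hG hst y s R hs h hyR).2
      have h8 : 0 ≤ ∫ z in ball y R \ ball y s, (‖z - y‖ ^ (d + 2))⁻¹ * ‖G z (z - y)‖ ^ 2 :=
        integral_nonneg fun z => by positivity
      linarith
    · rw [h]
  unfold Pool.Agent.H22.AN.th at hth
  rw [div_le_div_iff₀ (by positivity) (by positivity)] at hth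
  have h9 : (Pool.Agent.H22.AN.mu G).real (ball y R) ≤
      (Pool.Agent.H22.AN.mu G).real (ball x (2 * R)) :=
    measureReal_mono hy2 (ne_top_of_le_ne_top hfin (measure_mono (subset_univ _)))
  have h10 : (Pool.Agent.H22.AN.mu G).real (ball y R) * s ^ d ≤
      (Pool.Agent.H22.AN.mu G).real (ball x (2 * R)) * s ^ d :=
    mul_le_mul_of_nonneg_right h9 (by positivity)
  linarith

end Pool.Agent.H73.RG
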